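import Pool.Agent.V11287.BH5

/-!
# MP_6f2e8a_an

Badly approximable is not necessary for property (H): a weaker Diophantine condition is sufficient,
and it holds for `√2 · I` (all `n ≥ 2`) and for the skew-symmetric matrix `√2 · [[0,1],[-1,0]]`,
which are not badly approximable.
-/

open Filter Topology Set

namespace Pool.Agent.Results.MP_6f2e8a_an.ConditionNotNecessary

noncomputable section

/-- Euclidean norm of an integer vector. -/
def euclid {n : ℕ} (k : Fin n → ℤ) : ℝ := Real.sqrt (∑ i, (k i : ℝ) ^ 2)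

/-- `f_a(s) = ∑_{k ≠ 0} P(k) ‖k‖^{-s} e^{2πi k·a}`. -/
def f {n : ℕ} (P : MvPolynomial (Fin n) ℂ) (a : Fin n → ℝ) (s : ℂ) : ℂ :=
  ∑' k : Fin n → ℤ, if k = 0 then 0 else
    MvPolynomial.eval (fun i => (k i : ℂ)) P * (euclid k : ℂ) ^ (-s) *
      Complex.exp (2 * Real.pi * Complex.I * ((∑ i, (k i : ℝ) * a i : ℝ) : ℂ))

/-- Rapidly decreasing families on `(ℤⁿ)^q`. -/
def RapidlyDecreasing {q n : ℕ} (b : (Fin q → Fin n → ℤ) → ℂ) : Prop :=
  ∀ m : Fin q × Fin n → ℕ, ∃ C : ℝ, ∀ l, (∏ p, |(l p.1 p.2 : ℝ)| ^ m p) * ‖b l‖ ≤ C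

/-- `g₀(s) = ∑_{l ∉ Z} b(l) f_{Θ ∑ ε_i l_i}(s)`. -/
def g0 {q n : ℕ} (P : MvPolynomial (Fin n) ℂ) (Θ : Matrix (Fin n) (Fin n) ℝ)
    (b : (Fin q → Fin n → ℤ) → ℂ) (ε : Fin q → ℤ) (s : ℂ) : ℂ :=
  ∑' l : Fin q → Fin n → ℤ, if ∑ i, ε i • l i = 0 then 0 else
    b l * f P (Θ.mulVec (fun j => (((∑ i, ε i • l i) j : ℤ) : ℝ))) s

/-- Property (H). -/
def PropertyH {n : ℕ} (Θ : Matrix (Fin n) (Fin n) ℝ) : Prop :=
  ∀ (q : ℕ), 1 ≤ q → ∀ (d : ℕ) (P : MvPolynomial (Fin n) ℂ), P.IsHomogeneous d →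
    ∀ b : (Fin q → Fin n → ℤ) → ℂ, RapidlyDecreasing b →
    ∀ ε : Fin q → ℤ, (∀ i, ε i = -1 ∨ ε i = 0 ∨ ε i = 1) →
    ∃ F : ℂ → ℂ, Differentiable ℂ F ∧ ∀ s : ℂ, (n : ℝ) + d < s.re → F s = g0 P Θ b ε s

/-- Badly approximable vectors. -/
def BadVector {n : ℕ} (a : Fin n → ℝ) : Prop :=
  ∃ δ : ℝ, 0 < δ ∧ ∃ c : ℝ, 0 < c ∧ ∀ v : Fin n → ℤ, v ≠ 0 → ∀ m : ℤ,
    c * euclid v ^ (-δ) ≤ |∑ i, (v i : ℝ) * a i - m|

/-- Badly approximable matrices. -/
def BadMatrix {n : ℕ} (Θ : Matrix (Fin n) (Fin n) ℝ) : Prop :=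
  ∃ u : Fin n → ℤ, BadVector (Θ.transpose.mulVec (fun i => (u i : ℝ)))

open Pool.Agent.V11287.BH

lemma f_eq {n : ℕ} (P : MvPolynomial (Fin n) ℂ) (a : Fin n → ℝ) (j : Fin n) (s : ℂ) :
    f P a s = TN P 0 a j s := by
  unfold f TN
  congr 1
  ext k
  simp only [Function.iterate_zero, id]
  unfold ph ex
  by_cases hk : k = 0
  · simp [hk]
  · simp only [hk, if_false]
    rfl

/-- A weaker Diophantine condition implies property (H). -/
theorem sufficient {n : ℕ} (hn : 1 ≤ n) (Θ : Matrix (Fin n) (Fin n) ℝ) (c δ : ℝ) (hc : 0 < c)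
    (hΘ : ∀ v : Fin n → ℤ, v ≠ 0 → ∃ j, ∀ m : ℤ,
      c * euclid v ^ (-δ) ≤ |Θ.mulVec (fun i => (v i : ℝ)) j - m|) : PropertyH Θ := by
  classical
  intro q hq d P hP b hb ε hε
  haveI : Nonempty (Fin n) := ⟨⟨0, by omega⟩⟩
  choose! J0 hJ0 using hΘ
  set Z : Set (Fin q → Fin n → ℤ) := {l | ∑ i, ε i • l i = 0} with hZ
  set a : (Fin q → Fin n → ℤ) → Fin n → ℝ := fun l =>
    Θ.mulVec (fun j => (((∑ i, ε i • l i) j : ℤ) : ℝ)) with ha
  set J : (Fin q → Fin n → ℤ) → Fin n := fun l => J0 (∑ i, ε i • l i) with hJ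
  set D : ℕ := ⌈max δ 0⌉₊ with hD
  have hεb : ∀ i, |ε i| ≤ 1 := by
    intro i
    rcases hε i with h | h | h <;> rw [h] <;> decide
  obtain ⟨F, hF, hFe⟩ := entire P hn hP (b := b) hb Z a J (1 / (4 * c)) (by positivity) D (by
    intro l hl
    have hne : sg ε l ≠ 0 := hl
    have h1 := hJ0 (sg ε l) hne
    have h2 := one_sub_exp_ge (a l (J l)) (c * euclid (sg ε l) ^ (-δ)) h1
    have he1 : 1 ≤ euclid (sg ε l) := one_le_eN hne
    have hpos : 0 < c * euclid (sg ε l) ^ (-δ) := by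
      apply mul_pos hc
      apply Real.rpow_pos_of_pos
      linarith
    have h3 : 4 * (c * euclid (sg ε l) ^ (-δ)) ≤ ‖1 - uu (a l) (J l)‖ := h2
    have hp := one_le_pN l
    have h4 : (pN l ^ D)⁻¹ ≤ euclid (sg ε l) ^ (-δ) := by
      have h5 : euclid (sg ε l) ^ δ ≤ pN l ^ D := by
        calc euclid (sg ε l) ^ δ ≤ euclid (sg ε l) ^ (D : ℝ) := by
              apply Real.rpow_le_rpow_of_exponent_le he1
              exact (le_max_left δ 0).trans (Nat.le_ceil _)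
          _ = euclid (sg ε l) ^ D := Real.rpow_natCast _ _
          _ ≤ pN l ^ D := pow_le_pow_left₀ (eN_nonneg _) (eN_sg_le hεb l) D
      rw [Real.rpow_neg (by linarith)]
      apply inv_anti₀ _ h5
      apply Real.rpow_pos_of_pos
      linarith
    constructor
    · intro h5
      rw [h5, sub_self, norm_zero] at h3
      linarith
    · rw [norm_inv]
      have h6 : 4 * c * (pN l ^ D)⁻¹ ≤ ‖1 - uu (a l) (J l)‖ := by
        refine le_trans ?_ h3
        rw [mul_assoc]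
        gcongr
      have h7 : 0 < 4 * c * (pN l ^ D)⁻¹ := by positivity
      calc ‖1 - uu (a l) (J l)‖⁻¹ ≤ (4 * c * (pN l ^ D)⁻¹)⁻¹ := inv_anti₀ h7 h6
        _ = 1 / (4 * c) * pN l ^ D := by
            rw [mul_inv, inv_inv, one_div])
  refine ⟨F, hF, fun s hs => ?_⟩
  rw [hFe s hs]
  unfold FN g0
  congr 1
  ext l
  by_cases hl : l ∈ Z
  · have hl' : ∑ i, ε i • l i = 0 := hl
    rw [if_pos hl, if_pos hl']
  · have hl' : ¬ ∑ i, ε i • l i = 0 := hl
    rw [if_neg hl, if_neg hl', pow_zero, one_mul, f_eq P _ (J l) s]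

lemma sqrt_two_dioph (v : ℤ) (hv : v ≠ 0) (m : ℤ) : 1 / 4 * |(v : ℝ)|⁻¹ ≤ |Real.sqrt 2 * v - m| := by
  have hv1 : (1:ℝ) ≤ |(v : ℝ)| := by
    have : 1 ≤ |v| := Int.one_le_abs hv
    exact_mod_cast this
  have hs : Real.sqrt 2 ^ 2 = 2 := Real.sq_sqrt (by norm_num)
  have hs1 : 1 < Real.sqrt 2 := by
    rw [Real.lt_sqrt (by norm_num)]; norm_num
  have hs2 : Real.sqrt 2 < 3 / 2 := by
    rw [Real.sqrt_lt' (by norm_num)]; norm_num
  by_contra hcon
  push Not at hcon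
  have h1 : |(v : ℝ)|⁻¹ ≤ 1 := inv_le_one_of_one_le₀ hv1
  have h2 : |Real.sqrt 2 * v - m| < 1 / 4 := by linarith
  have h3 : |Real.sqrt 2 * v + m| ≤ 2 * Real.sqrt 2 * |(v:ℝ)| + 1 / 4 := by
    have e : Real.sqrt 2 * v + m = 2 * (Real.sqrt 2 * v) - (Real.sqrt 2 * v - m) := by ring
    rw [e]
    refine (abs_sub _ _).trans ?_
    rw [abs_mul, abs_mul, abs_of_pos (by norm_num : (0:ℝ) < 2), abs_of_pos (by linarith : 0 < Real.sqrt 2)]
    linarith
  have h4 : |Real.sqrt 2 * v + m| ≤ 13 / 4 * |(v:ℝ)| := by nlinarith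
  have h5 : |Real.sqrt 2 * v - m| * |Real.sqrt 2 * v + m| = |((2 * v ^ 2 - m ^ 2 : ℤ) : ℝ)| := by
    rw [← abs_mul]
    congr 1
    push_cast
    linear_combination (v:ℝ) ^ 2 * hs
  have hne : (2 * v ^ 2 - m ^ 2 : ℤ) ≠ 0 := by
    intro h0
    have hirr := irrational_sqrt_two
    apply hirr
    refine ⟨|((m : ℚ) / v)|, ?_⟩
    have hv0 : (v : ℝ) ≠ 0 := by exact_mod_cast hv
    have h6 : ((m : ℝ) / v) ^ 2 = 2 := by
      rw [div_pow, div_eq_iff (pow_ne_zero 2 hv0)]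
      have : (2 * (v:ℝ) ^ 2 - m ^ 2) = 0 := by exact_mod_cast h0
      linarith
    push_cast
    rw [← Real.sqrt_sq_eq_abs, h6]
  have h6 : (1:ℝ) ≤ |((2 * v ^ 2 - m ^ 2 : ℤ) : ℝ)| := by
    have : 1 ≤ |(2 * v ^ 2 - m ^ 2 : ℤ)| := Int.one_le_abs hne
    exact_mod_cast this
  rw [← h5] at h6
  have h7 : |Real.sqrt 2 * v - m| * |Real.sqrt 2 * v + m| ≤
      (1 / 4 * |(v : ℝ)|⁻¹) * (13 / 4 * |(v:ℝ)|) := by
    apply mul_le_mul hcon.le h4 (abs_nonneg _) (by positivity)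
  have h8 : (1 / 4 * |(v : ℝ)|⁻¹) * (13 / 4 * |(v:ℝ)|) = 13 / 16 := by
    have : |(v:ℝ)| ≠ 0 := by linarith
    field_simp
    norm_num
  linarith

/-- quantitative form for one nonzero coordinate -/
lemma coord {n : ℕ} {v : Fin n → ℤ} {i : Fin n} (hi : v i ≠ 0) (m : ℤ) :
    1 / 4 * euclid v ^ (-(1:ℝ)) ≤ |Real.sqrt 2 * v i - m| := by
  have hv : v ≠ 0 := by
    rintro rfl
    exact hi rfl
  refine le_trans ?_ (sqrt_two_dioph (v i) hi m)
  rw [Real.rpow_neg_one]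
  have h1 : |(v i : ℝ)| ≤ euclid v := abs_le_eN v i
  have h2 : 0 < |(v i : ℝ)| := abs_pos.mpr (by exact_mod_cast hi)
  gcongr

lemma scalar_H {n : ℕ} (hn : 1 ≤ n) :
    PropertyH (Real.sqrt 2 • (1 : Matrix (Fin n) (Fin n) ℝ)) := by
  refine sufficient hn _ (1 / 4) 1 (by norm_num) fun v hv => ?_
  obtain ⟨i, hi⟩ := Function.ne_iff.mp hv
  refine ⟨i, fun m => ?_⟩
  rw [Matrix.smul_mulVec, Matrix.one_mulVec]
  simp only [Pi.smul_apply, smul_eq_mul]
  exact coord hi m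

lemma scalar_not_bad {n : ℕ} (hn : 2 ≤ n) :
    ¬ BadMatrix (Real.sqrt 2 • (1 : Matrix (Fin n) (Fin n) ℝ)) := by
  rintro ⟨u, δ, hδ, c, hc, h⟩
  -- a nonzero integer vector orthogonal to `u`
  obtain ⟨v, hv, huv⟩ : ∃ v : Fin n → ℤ, v ≠ 0 ∧ ∑ i, v i * u i = 0 := by
    set i0 : Fin n := ⟨0, by omega⟩ with hi0
    set i1 : Fin n := ⟨1, by omega⟩ with hi1
    have h01 : i0 ≠ i1 := by rw [hi0, hi1]; intro h; simp at h
    by_cases hu : u i0 = 0
    · refine ⟨Pi.single i0 1, ?_, ?_⟩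
      · intro h0
        have := congrFun h0 i0
        simp at this
      · rw [Finset.sum_eq_single i0]
        · simp [hu]
        · intro i _ hi; simp [hi]
        · intro h; exact absurd (Finset.mem_univ _) h
    · refine ⟨Pi.single i0 (u i1) + Pi.single i1 (-u i0), ?_, ?_⟩
      · intro h0
        have := congrFun h0 i1
        simp [h01, Ne.symm h01] at this
        exact hu this
      · simp only [Pi.add_apply, add_mul, Finset.sum_add_distrib]
        rw [Finset.sum_eq_single i0, Finset.sum_eq_single i1]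
        · simp; ring
        · intro i _ hi; simp [hi]
        · intro h; exact absurd (Finset.mem_univ _) h
        · intro i _ hi; simp [hi]
        · intro h; exact absurd (Finset.mem_univ _) h
  have h1 := h v hv 0
  have h2 : ∑ i, (v i : ℝ) * (Real.sqrt 2 • (1 : Matrix (Fin n) (Fin n) ℝ)).transpose.mulVec
      (fun i => (u i : ℝ)) i = 0 := by
    rw [Matrix.transpose_smul, Matrix.transpose_one, Matrix.smul_mulVec, Matrix.one_mulVec]
    have : ∀ i, (v i : ℝ) * (Real.sqrt 2 • (fun i => (u i : ℝ))) i =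
        Real.sqrt 2 * ((v i : ℝ) * u i) := by
      intro i
      simp only [Pi.smul_apply, smul_eq_mul]
      ring
    simp_rw [this]
    rw [← Finset.mul_sum]
    have h3 : (∑ i, (v i : ℝ) * u i) = 0 := by exact_mod_cast huv
    rw [h3, mul_zero]
  rw [h2] at h1
  simp only [Int.cast_zero, sub_zero, abs_zero] at h1
  have h4 : 0 < c * euclid v ^ (-δ) := by
    apply mul_pos hc
    apply Real.rpow_pos_of_pos
    have : 1 ≤ euclid v := one_le_eN hv
    linarith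
  linarith

lemma skew_H : PropertyH !![0, Real.sqrt 2; -Real.sqrt 2, 0] := by
  refine sufficient (by norm_num) _ (1 / 4) 1 (by norm_num) fun v hv => ?_
  by_cases h0 : v 0 = 0
  · have h1 : v 1 ≠ 0 := by
      intro h1
      apply hv
      ext i
      fin_cases i
      · exact h0
      · exact h1
    refine ⟨0, fun m => ?_⟩
    have := coord h1 m
    simpa [Matrix.mulVec, dotProduct, Fin.sum_univ_two] using this
  · refine ⟨1, fun m => ?_⟩
    have := coord h0 (-m)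
    have e : |Real.sqrt 2 * (v 0 : ℝ) - ((-m : ℤ) : ℝ)| = |-(Real.sqrt 2 * (v 0 : ℝ)) - m| := by
      rw [← abs_neg]
      congr 1
      push_cast
      ring
    rw [e] at this
    simpa [Matrix.mulVec, dotProduct, Fin.sum_univ_two] using this

lemma skew_not_bad : ¬ BadMatrix !![0, Real.sqrt 2; -Real.sqrt 2, 0] := by
  rintro ⟨u, δ, hδ, c, hc, h⟩
  obtain ⟨v, hv, huv⟩ : ∃ v : Fin 2 → ℤ, v ≠ 0 ∧ u 0 * v 1 = u 1 * v 0 := by
    by_cases hu : u = 0
    · refine ⟨fun _ => 1, ?_, by simp [hu]⟩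
      intro h0
      have := congrFun h0 0
      simp at this
    · exact ⟨u, hu, mul_comm _ _⟩
  have h1 := h v hv 0
  have h2 : ∑ i, (v i : ℝ) * (!![0, Real.sqrt 2; -Real.sqrt 2, 0]).transpose.mulVec
      (fun i => (u i : ℝ)) i = 0 := by
    have h3 : (u 0 : ℝ) * v 1 = u 1 * v 0 := by exact_mod_cast huv
    simp [Matrix.mulVec, dotProduct, Fin.sum_univ_two]
    linear_combination Real.sqrt 2 * h3
  rw [h2] at h1
  simp only [Int.cast_zero, sub_zero, abs_zero] at h1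
  have h4 : 0 < c * euclid v ^ (-δ) := by
    apply mul_pos hc
    apply Real.rpow_pos_of_pos
    have : 1 ≤ euclid v := one_le_eN hv
    linarith
  linarith

/-- **Main result.**  The Diophantine condition is not necessary for property (H): the matrices
`√2 · I` (for every `n ≥ 2`) and, for `n = 2`, the skew-symmetric matrix `√2 · [[0,1],[-1,0]]` have
property (H) but are not badly approximable.  They are covered by a weaker sufficient condition:
property (H) holds as soon as the distance from `Θ v` to `ℤⁿ` is at least `c ‖v‖^{-δ}` for all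
nonzero integer vectors `v`. -/
theorem result :
    (∀ n : ℕ, 1 ≤ n → ∀ Θ : Matrix (Fin n) (Fin n) ℝ,
      (∃ c δ : ℝ, 0 < c ∧ ∀ v : Fin n → ℤ, v ≠ 0 → ∃ j, ∀ m : ℤ,
        c * euclid v ^ (-δ) ≤ |Θ.mulVec (fun i => (v i : ℝ)) j - m|) → PropertyH Θ) ∧
    (∀ n : ℕ, 2 ≤ n → PropertyH (Real.sqrt 2 • (1 : Matrix (Fin n) (Fin n) ℝ)) ∧
      ¬ BadMatrix (Real.sqrt 2 • (1 : Matrix (Fin n) (Fin n) ℝ))) ∧
    (PropertyH !![0, Real.sqrt 2; -Real.sqrt 2, 0] ∧
      ¬ BadMatrix !![0, Real.sqrt 2; -Real.sqrt 2, 0]) :=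
  ⟨fun _ hn Θ ⟨c, δ, hc, h⟩ => sufficient hn Θ c δ hc h,
    fun _ hn => ⟨scalar_H (by omega), scalar_not_bad hn⟩, skew_H, skew_not_bad⟩

end

end Pool.Agent.Results.MP_6f2e8a_an.ConditionNotNecessary
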